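import Mathlib

set_option autoImplicit false

namespace Pool.Agent.H616Z.Forcing

open MeasureTheory Filter Topology Set Metric
open scoped ENNReal

lemma circle_bound {h : ℂ → ℂ} {a : ℂ} {ρ r : ℝ} (hh : DifferentiableOn ℂ h (ball a ρ))
    (hr : 0 < r) (hrρ : r < ρ) :
    ENNReal.ofReal (2 * Real.pi) * ‖h a‖ₑ ≤
      ∫⁻ θ in Ioo (-Real.pi) Real.pi, ‖h (a + Complex.polarCoord.symm (r, θ))‖ₑ := by
  have h1 : DiffContOnCl ℂ h (ball a |r|) := by
    rw [abs_of_pos hr]
    refine DifferentiableOn.diffContOnCl ?_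
    rw [closure_ball a hr.ne']
    exact hh.mono (closedBall_subset_ball hrρ)
  have h2 := h1.circleAverage
  rw [Real.circleAverage_eq_integral_add (-Real.pi)] at h2
  have h3 : ∫ θ in (0 : ℝ)..2 * Real.pi, h (circleMap a r (θ + -Real.pi)) =
      ∫ θ in Ioo (-Real.pi) Real.pi, h (a + Complex.polarCoord.symm (r, θ)) := by
    rw [intervalIntegral.integral_comp_add_right (fun θ => h (circleMap a r θ)),
      intervalIntegral.integral_of_le (by linarith [Real.pi_pos]), integral_Ioc_eq_integral_Ioo]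
    have e1 : (0 : ℝ) + -Real.pi = -Real.pi := by ring
    have e2 : 2 * Real.pi + -Real.pi = Real.pi := by ring
    rw [e1, e2]
    congr 1
    funext θ
    rw [Complex.polarCoord_symm_apply, circleMap, Complex.exp_mul_I]
    simp
  rw [h3] at h2
  have h4 : ∫ θ in Ioo (-Real.pi) Real.pi, h (a + Complex.polarCoord.symm (r, θ)) =
      (2 * Real.pi) • h a := by
    rw [← h2, smul_smul, mul_inv_cancel₀ (by positivity), one_smul]
  have h5 := enorm_integral_le_lintegral_enorm (μ := volume.restrict (Ioo (-Real.pi) Real.pi))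
    (fun θ => h (a + Complex.polarCoord.symm (r, θ)))
  rw [h4, enorm_smul, ← ofReal_norm, Real.norm_of_nonneg (by positivity)] at h5
  exact h5

lemma mean_value_ball {h : ℂ → ℂ} (hm : Measurable h) {a : ℂ} {ρ : ℝ} (hρ : 0 < ρ)
    (hh : DifferentiableOn ℂ h (ball a ρ)) :
    ENNReal.ofReal (ρ ^ 2) * ‖h a‖ₑ ≤ ∫⁻ z in ball a ρ, ‖h z‖ₑ := by
  have h1 : ∫⁻ z in ball a ρ, ‖h z‖ₑ =
      ∫⁻ ζ, (ball (0 : ℂ) ρ).indicator (fun ζ => ‖h (a + ζ)‖ₑ) ζ := by
    rw [← lintegral_indicator measurableSet_ball,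
      ← lintegral_add_left_eq_self (μ := (volume : Measure ℂ)) _ a]
    congr 1
    funext ζ
    simp only [indicator, mem_ball, dist_self_add_left, dist_zero_right]
  rw [h1, ← Complex.lintegral_comp_polarCoord_symm]
  have hmeas : Measurable fun p : ℝ × ℝ =>
      ENNReal.ofReal p.1 * ‖h (a + Complex.polarCoord.symm p)‖ₑ := by
    have : Measurable fun p : ℝ × ℝ => Complex.polarCoord.symm p := by
      simp only [Complex.polarCoord_symm_apply]
      fun_prop
    exact (measurable_fst.ennreal_ofReal).mul (hm.comp (this.const_add a)).enorm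
  have h2 : ∫⁻ p in Ioo (0 : ℝ) ρ ×ˢ Ioo (-Real.pi) Real.pi,
      ENNReal.ofReal p.1 * ‖h (a + Complex.polarCoord.symm p)‖ₑ ≤
      ∫⁻ p in polarCoord.target, ENNReal.ofReal p.1 •
        (ball (0 : ℂ) ρ).indicator (fun ζ => ‖h (a + ζ)‖ₑ) (Complex.polarCoord.symm p) := by
    rw [polarCoord_target]
    refine le_trans (le_of_eq ?_) (lintegral_mono_set (prod_mono Ioo_subset_Ioi_self subset_rfl)
      (s := Ioo (0 : ℝ) ρ ×ˢ Ioo (-Real.pi) Real.pi))
    refine setLIntegral_congr_fun (measurableSet_Ioo.prod measurableSet_Ioo) fun p hp => ?_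
    simp only [smul_eq_mul]
    rw [indicator_of_mem]
    rw [mem_ball_zero_iff, Complex.norm_polarCoord_symm, abs_of_pos hp.1.1]
    exact hp.1.2
  refine le_trans ?_ h2
  rw [Measure.volume_eq_prod, setLIntegral_prod _ hmeas.aemeasurable]
  have h3 : ∫⁻ r in Ioo (0 : ℝ) ρ, ENNReal.ofReal r * (ENNReal.ofReal (2 * Real.pi) * ‖h a‖ₑ) ≤
      ∫⁻ r in Ioo (0 : ℝ) ρ, ∫⁻ θ in Ioo (-Real.pi) Real.pi,
        ENNReal.ofReal (r, θ).1 * ‖h (a + Complex.polarCoord.symm (r, θ))‖ₑ := by
    refine setLIntegral_mono' measurableSet_Ioo fun r hr => ?_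
    simp only
    rw [lintegral_const_mul' _ _ ENNReal.ofReal_ne_top]
    exact mul_le_mul' le_rfl (circle_bound hh hr.1 hr.2)
  refine le_trans ?_ h3
  rw [lintegral_mul_const _ measurable_id'.ennreal_ofReal, ← mul_assoc]
  refine mul_le_mul' ?_ le_rfl
  have h4 : ∫⁻ r in Ioo (0 : ℝ) ρ, ENNReal.ofReal r = ENNReal.ofReal (ρ ^ 2 / 2) := by
    rw [← ofReal_integral_eq_lintegral_ofReal]
    · rw [← integral_Ioc_eq_integral_Ioo, ← intervalIntegral.integral_of_le hρ.le, integral_id]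
      simp
    · exact (continuous_id.integrableOn_Icc (a := 0) (b := ρ)).mono_set Ioo_subset_Icc_self
    · filter_upwards [ae_restrict_mem measurableSet_Ioo] with r hr
      exact hr.1.le
  rw [h4, ← ENNReal.ofReal_mul (by positivity)]
  refine ENNReal.ofReal_le_ofReal ?_
  nlinarith [Real.pi_gt_three, sq_nonneg ρ]

/-- The upper half-plane. -/
def H : Set ℂ := {z : ℂ | 0 < z.im}

lemma isOpen_H : IsOpen H := isOpen_lt continuous_const Complex.continuous_im

/-- The Dirichlet energy measure of `f` on the upper half-plane. -/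
noncomputable def en (f : ℂ → ℂ) : Measure ℂ :=
  (volume.restrict H).withDensity fun z => ‖deriv f z ^ 2‖ₑ

lemma det_smul_one (c : ℂ) : (c • (1 : ℂ →L[ℝ] ℂ)).det = ‖c‖ ^ 2 := by
  rw [← Complex.normSq_eq_norm_sq, ← Algebra.norm_complex_apply, Algebra.norm_apply,
    ContinuousLinearMap.det]
  congr 1

lemma finite_en {f : ℂ → ℂ} (hf : DifferentiableOn ℂ f H) (hi : InjOn f H)
    (hm : MapsTo f H (ball 0 1)) : IsFiniteMeasure (en f) := by
  refine ⟨?_⟩
  unfold en
  rw [withDensity_apply _ MeasurableSet.univ, Measure.restrict_univ]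
  have h1 := lintegral_abs_det_fderiv_eq_addHaar_image (volume : Measure ℂ)
    isOpen_H.measurableSet (f := f) (f' := fun z => deriv f z • (1 : ℂ →L[ℝ] ℂ))
    (fun z hz => ((hf.differentiableAt (isOpen_H.mem_nhds hz)).hasDerivAt.complexToReal_fderiv
      ).hasFDerivWithinAt) hi
  have h2 : ∀ z, ENNReal.ofReal |(deriv f z • (1 : ℂ →L[ℝ] ℂ)).det| = ‖deriv f z ^ 2‖ₑ := by
    intro z
    rw [det_smul_one, abs_of_nonneg (by positivity), ← norm_pow, ofReal_norm]
  simp only [h2] at h1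
  rw [h1]
  exact (measure_mono hm.image_subset).trans_lt measure_ball_lt_top

lemma tendsto_en {f : ℂ → ℂ} [IsFiniteMeasure (en f)] :
    Tendsto (fun r : ℝ => (en f).real (closedBall 0 r)) (𝓝[>] 0) (𝓝 0) := by
  have h1 := tendsto_measure_cthickening_of_isCompact (μ := en f)
    (isCompact_singleton (x := (0 : ℂ)))
  have h2 : en f {0} = 0 := by
    refine withDensity_absolutelyContinuous _ _ ?_
    exact Measure.restrict_le_self.absolutelyContinuous (measure_singleton _)
  rw [h2] at h1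
  have h3 := ((ENNReal.tendsto_toReal ENNReal.zero_ne_top).comp h1).mono_left
    (nhdsWithin_le_nhds (s := Ioi 0))
  refine h3.congr' ?_
  filter_upwards [self_mem_nhdsWithin] with r hr
  simp only [Function.comp, Measure.real]
  rw [cthickening_singleton _ (le_of_lt hr)]

lemma deriv_bound {f : ℂ → ℂ} (hf : DifferentiableOn ℂ f H) [IsFiniteMeasure (en f)]
    {a : ℂ} {ρ : ℝ} (hρ : 0 < ρ) (hρa : ρ ≤ a.im) {U : Set ℂ} (hU : ball a ρ ⊆ U) :
    ‖deriv f a‖ ≤ √((en f).real U) / ρ := by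
  have hsub : ball a ρ ⊆ H := by
    intro z hz
    rw [mem_ball, dist_eq_norm] at hz
    have := (Complex.abs_im_le_norm (z - a)).trans_lt hz
    rw [abs_lt, Complex.sub_im] at this
    change 0 < z.im
    linarith [this.1]
  have h1 : DifferentiableOn ℂ (fun z => deriv f z ^ 2) (ball a ρ) :=
    ((hf.deriv isOpen_H).mono hsub).pow 2
  have h2 := mean_value_ball ((measurable_deriv f).pow_const 2) hρ h1
  have h3 : en f (ball a ρ) = ∫⁻ z in ball a ρ, ‖deriv f z ^ 2‖ₑ := by
    unfold en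
    rw [withDensity_apply _ measurableSet_ball, Measure.restrict_restrict measurableSet_ball,
      inter_eq_left.2 hsub]
  rw [← h3, ← ofReal_norm, ← ENNReal.ofReal_mul (by positivity)] at h2
  have h4 := ENNReal.toReal_mono (measure_ne_top _ _) (h2.trans (measure_mono hU))
  rw [ENNReal.toReal_ofReal (by positivity), norm_pow] at h4
  rw [le_div_iff₀ hρ]
  refine Real.le_sqrt_of_sq_le ?_
  rw [mul_pow, mul_comm]
  exact h4

lemma seg_bound {f : ℂ → ℂ} (hf : DifferentiableOn ℂ f H) [IsFiniteMeasure (en f)]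
    {s : Set ℂ} (hs : Convex ℝ s) {ρ : ℝ} (hρ : 0 < ρ) (hρs : ∀ a ∈ s, ρ ≤ a.im) {U : Set ℂ}
    (hU : ∀ a ∈ s, ball a ρ ⊆ U) {z w : ℂ} (hz : z ∈ s) (hw : w ∈ s) {c : ℝ}
    (hc : ‖z - w‖ ≤ c * ρ) : ‖f z - f w‖ ≤ c * √((en f).real U) := by
  have h1 := hs.norm_image_sub_le_of_norm_deriv_le (𝕜 := ℂ) (f := f)
    (C := √((en f).real U) / ρ)
    (fun a ha => hf.differentiableAt (isOpen_H.mem_nhds (hρ.trans_le (hρs a ha))))
    (fun a ha => deriv_bound hf hρ (hρs a ha) (hU a ha)) hw hz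
  refine h1.trans ?_
  calc √((en f).real U) / ρ * ‖z - w‖ ≤ √((en f).real U) / ρ * (c * ρ) := by gcongr
    _ = c * √((en f).real U) := by field_simp

end Pool.Agent.H616Z.Forcing
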