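import Pool.Agent.H616Z.Forcing.Tree

set_option autoImplicit false

namespace Pool.Agent.H616Z.Forcing

open MeasureTheory Filter Topology Set Metric
open scoped ENNReal

lemma hyp_bound {l : ℝ} {z w : ℂ} (hz : 0 < z.im) (hw : 0 < w.im)
    (h : 2 * Real.arsinh (‖z - w‖ / (2 * √(z.im * w.im))) < l) :
    ‖z - w‖ < (8 * Real.sinh (l / 2) ^ 2 + 1) * w.im := by
  set τ := Real.sinh (l / 2) with hτ
  have hs : 0 < √(z.im * w.im) := Real.sqrt_pos.2 (by positivity)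
  have h1 : ‖z - w‖ / (2 * √(z.im * w.im)) < τ := by
    rw [← Real.sinh_arsinh (‖z - w‖ / (2 * √(z.im * w.im)))]
    exact Real.sinh_lt_sinh.2 (by linarith)
  rw [div_lt_iff₀ (by positivity)] at h1
  have h2 : ‖z - w‖ ^ 2 < τ ^ 2 * 4 * (z.im * w.im) := by
    have h3 := pow_lt_pow_left₀ h1 (norm_nonneg _) two_ne_zero
    rw [mul_pow, mul_pow, Real.sq_sqrt (by positivity)] at h3
    linarith
  have h4 : z.im ≤ w.im + ‖z - w‖ := by
    have := (le_abs_self _).trans (Complex.abs_im_le_norm (z - w))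
    rw [Complex.sub_im] at this
    linarith
  by_contra hcon
  push Not at hcon
  set d := ‖z - w‖ with hd
  have hτ2 : 0 ≤ τ ^ 2 := sq_nonneg τ
  have h5 : w.im ≤ d := by nlinarith
  have h6 : z.im ≤ 2 * d := by linarith
  have h7 : τ ^ 2 * 4 * (z.im * w.im) ≤ τ ^ 2 * 4 * (2 * d * w.im) := by gcongr
  have h8 : 0 < d := by linarith
  have h9 : d * d < (8 * τ ^ 2 * w.im) * d := by nlinarith
  have h10 : d < 8 * τ ^ 2 * w.im := lt_of_mul_lt_mul_right h9 h8.le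
  nlinarith

theorem thin_density (l : ℝ) : ∃ m : ℕ, ∀ c : ℝ, 0 < c → ∃ δ : ℝ, 0 < δ ∧ ∀ r : ℝ, 0 < r → r < δ →
    (volume (((fun z : ℂ => ‖z‖) '' {z : ℂ | 0 < z.im ∧ ∃ w ∈ thin m,
      2 * Real.arsinh (‖z - w‖ / (2 * Real.sqrt (z.im * w.im))) < l}) ∩ Ioo (0 : ℝ) r)).toReal
      < c * r := by
  set M : ℝ := 8 * Real.sinh (l / 2) ^ 2 + 1 with hM
  obtain ⟨m, hm⟩ := pow_unbounded_of_one_lt (2 * M) (show (1 : ℝ) < 3 by norm_num)
  refine ⟨m, fun c hc => ?_⟩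
  obtain ⟨N, hN⟩ := exists_pow_lt_of_lt_one (show 0 < c / (6 * 2 ^ m) by positivity)
    (show (2 / 3 : ℝ) < 1 by norm_num)
  refine ⟨(1 / 2) ^ N / 2, by positivity, fun r hr hrδ => ?_⟩
  set A : ℕ → Set ℝ := fun j => {t : ℝ | (1 / 2 : ℝ) ^ (N + j) < 2 * r ∧
    ∃ w ∈ leaves (N + j + m) ((1 / 2) ^ (N + j)) ((1 / 2) ^ (N + j)),
      |t - ‖w‖| < (1 / 2) ^ (N + j) / (2 * 3 ^ (N + j))} with hA
  have hsub : ((fun z : ℂ => ‖z‖) '' {z : ℂ | 0 < z.im ∧ ∃ w ∈ thin m,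
      2 * Real.arsinh (‖z - w‖ / (2 * Real.sqrt (z.im * w.im))) < l}) ∩ Ioo (0 : ℝ) r
      ⊆ ⋃ j, A j := by
    rintro t ⟨⟨z, ⟨hz, w, hw, hzw⟩, rfl⟩, -, ht⟩
    obtain ⟨n, hn⟩ := mem_iUnion.1 hw
    have hs : (0 : ℝ) < (1 / 2) ^ n := by positivity
    have h1 := hyp_bound hz (thin_subset m hw) hzw
    rw [(leaves_spec _ _ _ hs w hn).1, ← hM] at h1
    have h2 : M * ((1 / 2) ^ n / 3 ^ (n + m)) ≤ (1 / 2) ^ n / (2 * 3 ^ n) := by
      rw [pow_add, ← mul_div_assoc, div_le_div_iff₀ (by positivity) (by positivity)]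
      have h3 : (0 : ℝ) < (1 / 2) ^ n * 3 ^ n := by positivity
      nlinarith
    have h4 : |‖z‖ - ‖w‖| < (1 / 2) ^ n / (2 * 3 ^ n) :=
      (abs_norm_sub_norm_le z w).trans_lt (h1.trans_le h2)
    have h5 : ((1 / 2) ^ n / (2 * 3 ^ n) : ℝ) ≤ (1 / 2) ^ n / 2 := by
      refine div_le_div_of_nonneg_left hs.le (by norm_num) ?_
      have : (1 : ℝ) ≤ 3 ^ n := one_le_pow₀ (by norm_num)
      linarith
    have h6 : (1 / 2 : ℝ) ^ n < 2 * r := by
      have := (abs_lt.1 h4).1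
      have h7 := (norm_leaf hs hn).1
      simp only at ht
      linarith
    have h8 : N ≤ n := by
      by_contra hcon
      push Not at hcon
      have : (1 / 2 : ℝ) ^ N ≤ (1 / 2) ^ n :=
        pow_le_pow_of_le_one (by norm_num) (by norm_num) hcon.le
      linarith
    obtain ⟨j, rfl⟩ := Nat.exists_eq_add_of_le h8
    exact mem_iUnion.2 ⟨j, h6, w, hn, h4⟩
  have hAj : ∀ j, volume (A j) ≤
      ENNReal.ofReal (2 * r * 2 ^ m * (2 / 3) ^ N * (2 / 3) ^ j) := by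
    intro j
    by_cases h : (1 / 2 : ℝ) ^ (N + j) < 2 * r
    · refine le_trans (measure_mono fun t ht => ht.2) ((measure_near _ _ _ _).trans ?_)
      rw [show (2 : ℝ≥0∞) = ENNReal.ofReal 2 by simp, ← ENNReal.ofReal_pow (by norm_num),
        ← ENNReal.ofReal_mul (by positivity)]
      refine ENNReal.ofReal_le_ofReal ?_
      have e1 : (2 : ℝ) ^ (N + j + m) * (2 * ((1 / 2) ^ (N + j) / (2 * 3 ^ (N + j)))) =
          (1 / 2) ^ (N + j) * (2 ^ m * (2 / 3) ^ N * (2 / 3) ^ j) := by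
        simp only [pow_add, div_pow]
        field_simp
      rw [e1]
      have e2 : (0 : ℝ) ≤ 2 ^ m * (2 / 3) ^ N * (2 / 3) ^ j := by positivity
      nlinarith
    · have : A j = ∅ := by
        ext t
        simp only [hA, mem_ofPred_eq, mem_empty_iff_false, iff_false]
        exact fun ht => h ht.1
      rw [this, measure_empty]
      exact zero_le
  have hsum : Summable fun j : ℕ => 2 * r * 2 ^ m * (2 / 3 : ℝ) ^ N * (2 / 3) ^ j :=
    (summable_geometric_of_lt_one (by norm_num) (by norm_num)).mul_left _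
  have hfin := (measure_mono hsub).trans
    ((measure_iUnion_le A).trans (ENNReal.tsum_le_tsum hAj))
  rw [← ENNReal.ofReal_tsum_of_nonneg (fun j => by positivity) hsum, tsum_mul_left,
    tsum_geometric_of_lt_one (by norm_num) (by norm_num)] at hfin
  refine (ENNReal.toReal_le_of_le_ofReal (by positivity) hfin).trans_lt ?_
  rw [lt_div_iff₀ (by positivity)] at hN
  have e3 : 2 * r * 2 ^ m * (2 / 3 : ℝ) ^ N * (1 - 2 / 3)⁻¹ = (2 / 3) ^ N * (6 * 2 ^ m) * r := by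
    norm_num
    ring
  rw [e3]
  exact mul_lt_mul_of_pos_right hN hr

end Pool.Agent.H616Z.Forcing
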