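import Pool.Agent.H616Z.Forcing.Area

set_option autoImplicit false

namespace Pool.Agent.H616Z.Forcing

open MeasureTheory Filter Topology Set Metric
open scoped ENNReal

/-- The leaves at depth `k` of the Cantor tree with root `x + i h`. -/
def leaves : ℕ → ℝ → ℝ → Set ℂ
  | 0, x, h => {(⟨x, h⟩ : ℂ)}
  | k + 1, x, h => leaves k x (h / 3) ∪ leaves k (x + 2 * h / 3) (h / 3)

/-- The tent over a node. -/
def tent (x h : ℝ) : Set ℂ :=
  {z : ℂ | x - h / 2 < z.re ∧ z.re < x + 3 * h / 2 ∧ 0 < z.im ∧ z.im < 2 * h}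

lemma measurableSet_tent (x h : ℝ) : MeasurableSet (tent x h) := by
  refine IsOpen.measurableSet ?_
  refine (isOpen_lt continuous_const Complex.continuous_re).inter
    ((isOpen_lt Complex.continuous_re continuous_const).inter
    ((isOpen_lt continuous_const Complex.continuous_im).inter
    (isOpen_lt Complex.continuous_im continuous_const)))

lemma leaves_spec : ∀ (k : ℕ) (x h : ℝ), 0 < h → ∀ w ∈ leaves k x h,
    w.im = h / 3 ^ k ∧ x ≤ w.re ∧ w.re ≤ x + h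
  | 0, x, h, hh, w, hw => by
    have : w = ⟨x, h⟩ := hw
    subst this
    simp [hh.le]
  | k + 1, x, h, hh, w, hw => by
    rcases hw with hw | hw
    · obtain ⟨h1, h2, h3⟩ := leaves_spec k _ _ (by positivity) w hw
      refine ⟨by rw [h1, pow_succ]; field_simp, h2, by linarith⟩
    · obtain ⟨h1, h2, h3⟩ := leaves_spec k _ _ (by positivity) w hw
      refine ⟨by rw [h1, pow_succ]; field_simp, by linarith, by linarith⟩

lemma step_bound {f : ℂ → ℂ} (hf : DifferentiableOn ℂ f H) [IsFiniteMeasure (en f)]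
    {x h x' : ℝ} (hh : 0 < h) (h1 : x ≤ x') (h2 : x' ≤ x + 2 * h / 3) :
    ‖f ⟨x, h⟩ - f ⟨x', h / 3⟩‖ ≤ 4 * √((en f).real (tent x h)) := by
  have hconv : Convex ℝ {z : ℂ | (x ≤ z.re ∧ z.re ≤ x + 2 * h / 3) ∧ (h / 3 ≤ z.im ∧ z.im ≤ h)} :=
    ((convex_halfSpace_re_ge x).inter (convex_halfSpace_re_le _)).inter
      ((convex_halfSpace_im_ge _).inter (convex_halfSpace_im_le h))
  refine seg_bound hf hconv (ρ := h / 3) (by positivity) (fun a ha => ha.2.1) (fun a ha z hz => ?_)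
    ⟨⟨le_rfl, by simp only; linarith⟩, ⟨by simp only; linarith, le_rfl⟩⟩
    ⟨⟨h1, h2⟩, ⟨le_rfl, by simp only; linarith⟩⟩ ?_
  · rw [mem_ball, dist_eq_norm] at hz
    have h3 := (Complex.abs_im_le_norm (z - a)).trans_lt hz
    have h4 := (Complex.abs_re_le_norm (z - a)).trans_lt hz
    rw [abs_lt, Complex.sub_im] at h3
    rw [abs_lt, Complex.sub_re] at h4
    obtain ⟨⟨a1, a2⟩, a3, a4⟩ := ha
    exact ⟨by linarith [h4.1], by linarith [h4.2], by linarith [h3.1], by linarith [h3.2]⟩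
  · refine (Complex.norm_le_abs_re_add_abs_im _).trans ?_
    simp only [Complex.sub_re, Complex.sub_im]
    rw [abs_of_nonpos (by linarith), abs_of_nonneg (by linarith)]
    linarith

lemma chain {f : ℂ → ℂ} (hf : DifferentiableOn ℂ f H) [IsFiniteMeasure (en f)] :
    ∀ (k : ℕ) (x h : ℝ), 0 < h → ∃ w ∈ leaves k x h,
      ‖f ⟨x, h⟩ - f w‖ ≤ 16 * √((en f).real (tent x h))
  | 0, x, h, _ => ⟨⟨x, h⟩, rfl, by simp⟩
  | k + 1, x, h, hh => by
    have hsum : (en f).real (tent x (h / 3)) + (en f).real (tent (x + 2 * h / 3) (h / 3)) ≤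
        (en f).real (tent x h) := by
      rw [← measureReal_union _ (measurableSet_tent _ _)]
      · refine measureReal_mono ?_
        rintro z (⟨a1, a2, a3, a4⟩ | ⟨a1, a2, a3, a4⟩) <;>
        exact ⟨by linarith, by linarith, a3, by linarith⟩
      · rw [Set.disjoint_left]
        rintro z ⟨a1, a2, a3, a4⟩ ⟨b1, b2, b3, b4⟩
        linarith
    have key : ∀ x' : ℝ, x ≤ x' → x' ≤ x + 2 * h / 3 →
        2 * (en f).real (tent x' (h / 3)) ≤ (en f).real (tent x h) →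
        ∃ w ∈ leaves k x' (h / 3), ‖f ⟨x, h⟩ - f w‖ ≤ 16 * √((en f).real (tent x h)) := by
      intro x' h1 h2 h3
      obtain ⟨w, hw, h4⟩ := chain hf k x' (h / 3) (by positivity)
      refine ⟨w, hw, ?_⟩
      have h5 := step_bound hf hh h1 h2
      have h6 : √((en f).real (tent x' (h / 3))) ≤ 3 / 4 * √((en f).real (tent x h)) := by
        refine Real.sqrt_le_iff.2 ⟨by positivity, ?_⟩
        rw [mul_pow, Real.sq_sqrt measureReal_nonneg]
        have : 0 ≤ (en f).real (tent x h) := measureReal_nonneg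
        linarith
      calc ‖f ⟨x, h⟩ - f w‖ ≤ ‖f ⟨x, h⟩ - f ⟨x', h / 3⟩‖ + ‖f ⟨x', h / 3⟩ - f w‖ :=
            norm_sub_le_norm_sub_add_norm_sub _ _ _
        _ ≤ 16 * √((en f).real (tent x h)) := by linarith
    rcases le_total ((en f).real (tent x (h / 3))) ((en f).real (tent (x + 2 * h / 3) (h / 3)))
      with h1 | h1
    · obtain ⟨w, hw, h2⟩ := key x le_rfl (by linarith) (by linarith)
      exact ⟨w, Or.inl hw, h2⟩
    · obtain ⟨w, hw, h2⟩ := key (x + 2 * h / 3) (by linarith) le_rfl (by linarith)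
      exact ⟨w, Or.inr hw, h2⟩

lemma measure_near : ∀ (k : ℕ) (x h d : ℝ),
    volume {t : ℝ | ∃ w ∈ leaves k x h, |t - ‖w‖| < d} ≤ 2 ^ k * ENNReal.ofReal (2 * d)
  | 0, x, h, d => by
    have : {t : ℝ | ∃ w ∈ leaves 0 x h, |t - ‖w‖| < d} = ball ‖(⟨x, h⟩ : ℂ)‖ d := by
      ext t
      simp [leaves, Real.dist_eq]
    rw [this, Real.volume_ball]
    simp
  | k + 1, x, h, d => by
    have : {t : ℝ | ∃ w ∈ leaves (k + 1) x h, |t - ‖w‖| < d} ⊆
        {t : ℝ | ∃ w ∈ leaves k x (h / 3), |t - ‖w‖| < d} ∪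
        {t : ℝ | ∃ w ∈ leaves k (x + 2 * h / 3) (h / 3), |t - ‖w‖| < d} := by
      rintro t ⟨w, hw | hw, h1⟩
      · exact Or.inl ⟨w, hw, h1⟩
      · exact Or.inr ⟨w, hw, h1⟩
    refine (measure_mono this).trans ((measure_union_le _ _).trans ?_)
    refine (add_le_add (measure_near k _ _ d) (measure_near k _ _ d)).trans (le_of_eq ?_)
    ring

/-- The thin forcing set. -/
def thin (m : ℕ) : Set ℂ := ⋃ n : ℕ, leaves (n + m) ((1 / 2) ^ n) ((1 / 2) ^ n)

lemma thin_subset (m : ℕ) : thin m ⊆ H := by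
  intro w hw
  obtain ⟨n, hn⟩ := mem_iUnion.1 hw
  have := (leaves_spec _ _ _ (by positivity) w hn).1
  change 0 < w.im
  rw [this]
  positivity

lemma norm_leaf {k : ℕ} {s : ℝ} (hs : 0 < s) {w : ℂ} (hw : w ∈ leaves k s s) :
    s ≤ ‖w‖ ∧ ‖w‖ ≤ 3 * s := by
  obtain ⟨h1, h2, h3⟩ := leaves_spec _ _ _ hs w hw
  refine ⟨h2.trans (Complex.re_le_norm w), (Complex.norm_le_abs_re_add_abs_im w).trans ?_⟩
  have h4 : w.im ≤ s := by
    rw [h1]
    exact div_le_self hs.le (one_le_pow₀ (by norm_num))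
  have h5 : 0 ≤ w.im := by rw [h1]; positivity
  rw [abs_of_nonneg (by linarith), abs_of_nonneg h5]
  linarith

lemma im_ge_of_sector {θ : ℝ} (h0 : 0 < θ) (h1 : θ < Real.pi / 2) {z : ℂ} (hz : z ≠ 0)
    (h2 : θ ≤ Complex.arg z) (h3 : Complex.arg z ≤ Real.pi - θ) : ‖z‖ * Real.sin θ ≤ z.im := by
  have h4 : Real.sin θ ≤ Real.sin (Complex.arg z) := by
    rcases le_total (Complex.arg z) (Real.pi / 2) with h | h
    · exact Real.sin_le_sin_of_le_of_le_pi_div_two (by linarith) h h2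
    · rw [← Real.sin_pi_sub (Complex.arg z)]
      exact Real.sin_le_sin_of_le_of_le_pi_div_two (by linarith) (by linarith) (by linarith)
  rw [Complex.sin_arg, le_div_iff₀ (norm_pos_iff.2 hz)] at h4
  linarith

theorem thin_forcing (m : ℕ) (f : ℂ → ℂ) (hf : DifferentiableOn ℂ f H) (hi : InjOn f H)
    (hm : MapsTo f H (ball 0 1)) (α : ℂ) (hα : Tendsto f (𝓝[thin m] 0) (𝓝 α))
    (θ : ℝ) (h0 : 0 < θ) (h1 : θ < Real.pi / 2) :
    Tendsto f (𝓝[{z : ℂ | z ≠ 0 ∧ θ ≤ Complex.arg z ∧ Complex.arg z ≤ Real.pi - θ}] 0) (𝓝 α) := by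
  have := finite_en hf hi hm
  have hsin : 0 < Real.sin θ := Real.sin_pos_of_pos_of_lt_pi h0 (by linarith [Real.pi_pos])
  have hsin1 : Real.sin θ ≤ 1 := Real.sin_le_one θ
  rw [Metric.tendsto_nhdsWithin_nhds] at hα ⊢
  intro ε hε
  obtain ⟨δ₁, hδ₁, H1⟩ := hα (ε / 2) (by positivity)
  have hlim : Tendsto (fun r : ℝ => (6 / Real.sin θ + 16) * √((en f).real (closedBall 0 r)))
      (𝓝[>] 0) (𝓝 0) := by
    have := (tendsto_en (f := f)).sqrt.const_mul (6 / Real.sin θ + 16)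
    simpa using this
  have hev := (hlim.eventually (gt_mem_nhds (show (0 : ℝ) < ε / 2 by positivity))).and
    self_mem_nhdsWithin
  obtain ⟨r, hr1, hr0⟩ := hev.exists
  have hr0' : 0 < r := hr0
  refine ⟨min (min (δ₁ / 6) (r / 10)) 1, by positivity, fun z hz hzd => ?_⟩
  obtain ⟨hz0, hz1, hz2⟩ := hz
  rw [dist_zero_right, lt_min_iff, lt_min_iff] at hzd
  obtain ⟨⟨hd1, hd2⟩, hd3⟩ := hzd
  have hzpos : 0 < ‖z‖ := norm_pos_iff.2 hz0
  obtain ⟨n, hn1, hn2⟩ := exists_nat_pow_near_of_lt_one hzpos hd3.le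
    (show (0 : ℝ) < 1 / 2 by norm_num) (by norm_num)
  set s : ℝ := (1 / 2) ^ n with hs
  have hs0 : 0 < s := by positivity
  have hn3 : s < 2 * ‖z‖ := by
    rw [pow_succ] at hn1
    linarith
  obtain ⟨w, hw, hw1⟩ := chain hf (n + m) s s hs0
  have hw2 := norm_leaf hs0 hw
  have hw3 : dist (f w) α < ε / 2 :=
    H1 (mem_iUnion.2 ⟨n, hw⟩) (by rw [dist_zero_right]; linarith [hw2.2])
  have him := im_ge_of_sector h0 h1 hz0 hz1 hz2
  have hconv : Convex ℝ ({a : ℂ | s * Real.sin θ / 2 ≤ a.im} ∩ closedBall 0 (2 * s)) :=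
    (convex_halfSpace_im_ge _).inter (convex_closedBall _ _)
  have hρ : s * Real.sin θ / 2 ≤ s := by nlinarith
  have hp : ‖(⟨s, s⟩ : ℂ)‖ ≤ 2 * s := by
    refine (Complex.norm_le_abs_re_add_abs_im _).trans ?_
    simp only
    rw [abs_of_pos hs0]
    linarith
  have hA : ‖f z - f ⟨s, s⟩‖ ≤ 6 / Real.sin θ * √((en f).real (closedBall 0 r)) := by
    refine seg_bound hf hconv (ρ := s * Real.sin θ / 2) (by positivity) (fun a ha => ha.1)
      (fun a ha ζ hζ => ?_) ⟨?_, ?_⟩ ⟨hρ, ?_⟩ ?_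
    · rw [mem_closedBall_zero_iff]
      have h5 := mem_closedBall_zero_iff.1 ha.2
      rw [mem_ball, dist_eq_norm] at hζ
      have h6 : ‖ζ‖ ≤ ‖a‖ + ‖ζ - a‖ := by
        have := norm_add_le a (ζ - a)
        simpa using this
      linarith
    · change s * Real.sin θ / 2 ≤ z.im
      nlinarith
    · rw [mem_closedBall_zero_iff]; linarith
    · rw [mem_closedBall_zero_iff]; exact hp
    · have h5 : 6 / Real.sin θ * (s * Real.sin θ / 2) = 3 * s := by field_simp; norm_num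
      rw [h5]
      linarith [norm_sub_le z ⟨s, s⟩]
  have hB : √((en f).real (tent s s)) ≤ √((en f).real (closedBall 0 r)) := by
    refine Real.sqrt_le_sqrt (measureReal_mono fun ζ hζ => ?_)
    obtain ⟨a1, a2, a3, a4⟩ := hζ
    rw [mem_closedBall_zero_iff]
    refine (Complex.norm_le_abs_re_add_abs_im _).trans ?_
    rw [abs_of_pos (by linarith), abs_of_pos a3]
    linarith
  rw [dist_eq_norm] at hw3 ⊢
  have hC : ‖f z - α‖ ≤ ‖f z - f ⟨s, s⟩‖ + ‖f ⟨s, s⟩ - f w‖ + ‖f w - α‖ := by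
    have e1 := norm_sub_le_norm_sub_add_norm_sub (f z) (f ⟨s, s⟩) α
    have e2 := norm_sub_le_norm_sub_add_norm_sub (f ⟨s, s⟩) (f w) α
    linarith
  nlinarith

end Pool.Agent.H616Z.Forcing
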